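import Mathlib

/-! Positive definite functions on a finite group of exponent two. -/

namespace H355

open Finset BigOperators

set_option linter.unusedSectionVars false

/-- The sign of an element of `ZMod 2`. -/
def sg (a : ZMod 2) : ℝ := if a = 0 then 1 else -1

lemma sg_zero : sg 0 = 1 := by simp [sg]

lemma sg_one : sg 1 = -1 := by simp [sg]

lemma zmod2_cases (a : ZMod 2) : a = 0 ∨ a = 1 := by
  revert a; decide

lemma sg_add (a b : ZMod 2) : sg (a + b) = sg a * sg b := by
  rcases zmod2_cases a with rfl | rfl <;> rcases zmod2_cases b with rfl | rfl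
  · simp [sg]
  · simp [sg]
  · simp [sg]
  · have : (1 : ZMod 2) + 1 = 0 := by decide
    rw [this]; simp [sg]

lemma sg_mul_self (a : ZMod 2) : sg a * sg a = 1 := by
  rcases zmod2_cases a with rfl | rfl <;> simp [sg]

lemma abs_sg (a : ZMod 2) : |sg a| = 1 := by
  rcases zmod2_cases a with rfl | rfl <;> simp [sg]

lemma sg_le_one (a : ZMod 2) : sg a ≤ 1 := by
  rcases zmod2_cases a with rfl | rfl <;> simp [sg]

lemma neg_one_le_sg (a : ZMod 2) : -1 ≤ sg a := by
  rcases zmod2_cases a with rfl | rfl <;> simp [sg]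

variable {W : Type*} [AddCommGroup W] [Fintype W]

/-- The average of a real function over the finite group `W`. -/
noncomputable def av (f : W → ℝ) : ℝ := (Fintype.card W : ℝ)⁻¹ * ∑ x, f x

lemma card_pos' : (0 : ℝ) < (Fintype.card W : ℝ) := by
  exact_mod_cast Fintype.card_pos

lemma av_add (f g : W → ℝ) : av (fun x => f x + g x) = av f + av g := by
  simp [av, Finset.sum_add_distrib, mul_add]

lemma av_smul (c : ℝ) (f : W → ℝ) : av (fun x => c * f x) = c * av f := by
  simp only [av, ← Finset.mul_sum]; ring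

lemma av_const (c : ℝ) : av (fun _ : W => c) = c := by
  have := card_pos' (W := W)
  simp [av]

lemma av_sum {ι : Type*} (s : Finset ι) (f : ι → W → ℝ) :
    av (fun x => ∑ i ∈ s, f i x) = ∑ i ∈ s, av (f i) := by
  simp only [av]
  rw [Finset.sum_comm, Finset.mul_sum]

lemma av_mono {f g : W → ℝ} (h : ∀ x, f x ≤ g x) : av f ≤ av g := by
  unfold av
  apply mul_le_mul_of_nonneg_left _ (le_of_lt (inv_pos.mpr card_pos'))
  exact Finset.sum_le_sum fun x _ => h x

lemma sum_char (φ : W →+ ZMod 2) (h : φ ≠ 0) : ∑ x, sg (φ x) = 0 := by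
  obtain ⟨y, hy⟩ : ∃ y, φ y ≠ 0 := by
    by_contra hc
    push Not at hc
    exact h (AddMonoidHom.ext hc)
  have hy1 : φ y = 1 := by
    rcases zmod2_cases (φ y) with h0 | h1
    · exact absurd h0 hy
    · exact h1
  have h1 : ∑ x, sg (φ x) = ∑ x, sg (φ (x + y)) :=
    (Equiv.sum_comp (Equiv.addRight y) (fun x => sg (φ x))).symm
  have h2 : ∑ x, sg (φ (x + y)) = - ∑ x, sg (φ x) := by
    rw [← Finset.sum_neg_distrib]
    apply Finset.sum_congr rfl
    intro x _
    rw [map_add, sg_add, hy1, sg_one]; ring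
  linarith

lemma av_char_zero : av (fun x : W => sg ((0 : W →+ ZMod 2) x)) = 1 := by
  simp [sg_zero, av_const]

lemma av_char_ne {φ : W →+ ZMod 2} (h : φ ≠ 0) : av (fun x : W => sg (φ x)) = 0 := by
  simp [av, sum_char φ h]

lemma av_char_nonneg (φ : W →+ ZMod 2) : 0 ≤ av (fun x : W => sg (φ x)) := by
  by_cases h : φ = 0
  · subst h; rw [av_char_zero]; norm_num
  · rw [av_char_ne h]

/-- `f` is positive definite: a combination of characters with nonnegative coefficients. -/
def PD (f : W → ℝ) : Prop :=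
  ∃ (ι : Type) (_ : Fintype ι) (a : ι → ℝ) (φ : ι → (W →+ ZMod 2)),
    (∀ i, 0 ≤ a i) ∧ ∀ x, f x = ∑ i, a i * sg (φ i x)

lemma PD.congr {f g : W → ℝ} (hf : PD f) (h : ∀ x, g x = f x) : PD g := by
  obtain ⟨ι, _, a, φ, ha, hφ⟩ := hf
  exact ⟨ι, _, a, φ, ha, fun x => by rw [h, hφ]⟩

lemma PD.char (φ : W →+ ZMod 2) : PD (fun x => sg (φ x)) :=
  ⟨Unit, inferInstance, fun _ => 1, fun _ => φ, fun _ => zero_le_one, fun x => by simp⟩

lemma PD.const {c : ℝ} (hc : 0 ≤ c) : PD (fun _ : W => c) :=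
  ⟨Unit, inferInstance, fun _ => c, fun _ => 0, fun _ => hc, fun x => by simp [sg_zero]⟩

lemma PD.add {f g : W → ℝ} (hf : PD f) (hg : PD g) : PD (fun x => f x + g x) := by
  obtain ⟨ι, _, a, φ, ha, hφ⟩ := hf
  obtain ⟨κ, _, b, ψ, hb, hψ⟩ := hg
  refine ⟨ι ⊕ κ, inferInstance, Sum.elim a b, Sum.elim φ ψ, ?_, ?_⟩
  · rintro (i | i)
    · exact ha i
    · exact hb i
  · intro x
    beta_reduce
    rw [hφ, hψ, Fintype.sum_sum_type]
    simp

lemma PD.mul {f g : W → ℝ} (hf : PD f) (hg : PD g) : PD (fun x => f x * g x) := by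
  obtain ⟨ι, _, a, φ, ha, hφ⟩ := hf
  obtain ⟨κ, _, b, ψ, hb, hψ⟩ := hg
  refine ⟨ι × κ, inferInstance, fun p => a p.1 * b p.2, fun p => φ p.1 + ψ p.2, ?_, ?_⟩
  · rintro ⟨i, j⟩
    exact mul_nonneg (ha i) (hb j)
  · intro x
    beta_reduce
    rw [hφ, hψ, Finset.sum_mul_sum, Fintype.sum_prod_type]
    apply Finset.sum_congr rfl; intro i _
    apply Finset.sum_congr rfl; intro j _
    simp only [AddMonoidHom.add_apply, sg_add]
    ring

lemma PD.sum {κ : Type*} (s : Finset κ) {f : κ → W → ℝ} (hf : ∀ i ∈ s, PD (f i)) :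
    PD (fun x => ∑ i ∈ s, f i x) := by
  classical
  induction s using Finset.induction_on with
  | empty => simpa using PD.const (W := W) (le_refl 0)
  | insert a s ha ih =>
    have h1 := (hf a (Finset.mem_insert_self a s)).add
      (ih fun i hi => hf i (Finset.mem_insert_of_mem hi))
    exact h1.congr fun x => by rw [Finset.sum_insert ha]

lemma PD.pow {f : W → ℝ} (hf : PD f) (n : ℕ) : PD (fun x => f x ^ n) := by
  induction n with
  | zero => simpa using PD.const (W := W) zero_le_one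
  | succ n ih => exact (ih.mul hf).congr fun x => by rw [pow_succ]

lemma PD.smul {f : W → ℝ} (hf : PD f) {c : ℝ} (hc : 0 ≤ c) : PD (fun x => c * f x) :=
  (PD.const hc).mul hf

lemma PD.av_nonneg {f : W → ℝ} (hf : PD f) : 0 ≤ av f := by
  obtain ⟨ι, _, a, φ, ha, hφ⟩ := hf
  have : av f = ∑ i, a i * av (fun x => sg (φ i x)) := by
    have h1 : f = fun x => ∑ i, a i * sg (φ i x) := funext hφ
    rw [h1, av_sum]
    exact Finset.sum_congr rfl fun i _ => av_smul _ _
  rw [this]
  exact Finset.sum_nonneg fun i _ => mul_nonneg (ha i) (av_char_nonneg _)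

lemma av_char_mul (φ ψ : W →+ ZMod 2) :
    av (fun x => sg (φ x)) * av (fun x => sg (ψ x)) ≤ av (fun x => sg ((φ + ψ) x)) := by
  by_cases h : φ = 0
  · subst h; rw [av_char_zero, one_mul, zero_add]
  · rw [av_char_ne h, zero_mul]; exact av_char_nonneg _

lemma PD.av_mul_le {f g : W → ℝ} (hf : PD f) (hg : PD g) :
    av f * av g ≤ av (fun x => f x * g x) := by
  obtain ⟨ι, _, a, φ, ha, hφ⟩ := hf
  obtain ⟨κ, _, b, ψ, hb, hψ⟩ := hg
  have h1 : av f = ∑ i, a i * av (fun x => sg (φ i x)) := by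
    have h1 : f = fun x => ∑ i, a i * sg (φ i x) := funext hφ
    rw [h1, av_sum]
    exact Finset.sum_congr rfl fun i _ => av_smul _ _
  have h2 : av g = ∑ i, b i * av (fun x => sg (ψ i x)) := by
    have h1 : g = fun x => ∑ i, b i * sg (ψ i x) := funext hψ
    rw [h1, av_sum]
    exact Finset.sum_congr rfl fun i _ => av_smul _ _
  have h3 : av (fun x => f x * g x) =
      ∑ i, ∑ j, a i * b j * av (fun x => sg ((φ i + ψ j) x)) := by
    have h1 : (fun x => f x * g x) = fun x => ∑ i, ∑ j, a i * b j * sg ((φ i + ψ j) x) := by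
      funext x
      rw [hφ, hψ, Finset.sum_mul_sum]
      apply Finset.sum_congr rfl; intro i _
      apply Finset.sum_congr rfl; intro j _
      simp only [AddMonoidHom.add_apply, sg_add]
      ring
    rw [h1, av_sum]
    apply Finset.sum_congr rfl; intro i _
    rw [av_sum]
    exact Finset.sum_congr rfl fun j _ => av_smul _ _
  rw [h1, h2, h3, Finset.sum_mul_sum]
  apply Finset.sum_le_sum; intro i _
  apply Finset.sum_le_sum; intro j _
  have := av_char_mul (φ i) (ψ j)
  have hab := mul_nonneg (ha i) (hb j)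
  calc a i * av (fun x => sg (φ i x)) * (b j * av (fun x => sg (ψ j x)))
      = (a i * b j) * (av (fun x => sg (φ i x)) * av (fun x => sg (ψ j x))) := by ring
    _ ≤ _ := mul_le_mul_of_nonneg_left this hab

lemma PD.av_pow_le {f : W → ℝ} (hf : PD f) (n : ℕ) : av f ^ n ≤ av (fun x => f x ^ n) := by
  induction n with
  | zero => simp [av_const]
  | succ n ih =>
    calc av f ^ (n + 1) = av f ^ n * av f := pow_succ _ _
      _ ≤ av (fun x => f x ^ n) * av f := mul_le_mul_of_nonneg_right ih hf.av_nonneg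
      _ ≤ av (fun x => f x ^ n * f x) := (hf.pow n).av_mul_le hf
      _ = _ := by simp only [pow_succ]

end H355
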