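import Mathlib
import Pool.Agent.helper355_cosum.PD

/-! Existence of a nonzero point at which many character sums are simultaneously large. -/

namespace H355

open Finset BigOperators

set_option linter.unusedSectionVars false

variable {W : Type*} [AddCommGroup W] [Fintype W]

lemma abs_sum_sg_le {k : ℕ} (φ : Fin k → (W →+ ZMod 2)) (x : W) :
    |∑ i, sg (φ i x)| ≤ k := by
  calc |∑ i, sg (φ i x)| ≤ ∑ i, |sg (φ i x)| := Finset.abs_sum_le_sum_abs _ _
    _ = k := by simp [abs_sg]

lemma PD.block {k : ℕ} (φ : Fin k → (W →+ ZMod 2)) : PD (fun x => ∑ i, sg (φ i x)) :=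
  PD.sum _ fun i _ => PD.char (φ i)

/-- the second moment of a block sum is at least the number of its characters -/
lemma av_block_sq {k : ℕ} (φ : Fin k → (W →+ ZMod 2)) :
    (k : ℝ) ≤ av (fun x => (∑ i, sg (φ i x)) ^ 2) := by
  have h1 : (fun x : W => (∑ i, sg (φ i x)) ^ 2) =
      fun x => ∑ i, ∑ j, sg ((φ i + φ j) x) := by
    funext x
    rw [pow_two, Finset.sum_mul_sum]
    apply Finset.sum_congr rfl; intro i _
    apply Finset.sum_congr rfl; intro j _
    simp only [AddMonoidHom.add_apply, sg_add]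
  rw [h1, av_sum]
  have h2 : ∀ i : Fin k, (1 : ℝ) ≤ av (fun x => ∑ j, sg ((φ i + φ j) x)) := by
    intro i
    rw [av_sum]
    have h3 : av (fun x => sg ((φ i + φ i) x)) = 1 := by
      have : (fun x : W => sg ((φ i + φ i) x)) = fun _ => (1 : ℝ) := by
        funext x
        simp only [AddMonoidHom.add_apply, sg_add, sg_mul_self]
      rw [this, av_const]
    calc (1 : ℝ) = av (fun x => sg ((φ i + φ i) x)) := h3.symm
      _ ≤ _ := Finset.single_le_sum (f := fun j => av (fun x => sg ((φ i + φ j) x)))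
          (fun j _ => av_char_nonneg _) (Finset.mem_univ i)
  calc (k : ℝ) = ∑ _i : Fin k, (1 : ℝ) := by simp
    _ ≤ _ := Finset.sum_le_sum fun i _ => h2 i

/-- moments grow at least geometrically -/
lemma PD.av_pow_add {G : W → ℝ} (hG : PD G) {h : ℝ} (hh : 0 ≤ h) (hav : h ≤ av G) (a j : ℕ) :
    h ^ a * av (fun x => G x ^ j) ≤ av (fun x => G x ^ (j + a)) := by
  induction a with
  | zero => simp
  | succ a ih =>
    calc h ^ (a + 1) * av (fun x => G x ^ j) = h * (h ^ a * av (fun x => G x ^ j)) := by ring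
      _ ≤ h * av (fun x => G x ^ (j + a)) := mul_le_mul_of_nonneg_left ih hh
      _ ≤ av G * av (fun x => G x ^ (j + a)) :=
          mul_le_mul_of_nonneg_right hav (hG.pow _).av_nonneg
      _ ≤ av (fun x => G x * G x ^ (j + a)) := hG.av_mul_le (hG.pow _)
      _ = av (fun x => G x ^ (j + (a + 1))) := by
          congr 1; funext x; rw [← pow_succ']; congr 1

/-- shifting by `s` costs at most a factor `(1 + s / h) ^ J` -/
lemma PD.av_shift {G : W → ℝ} (hG : PD G) {h s : ℝ} (hh : 0 < h) (hs : 0 ≤ s)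
    (hav : h ≤ av G) (J : ℕ) :
    av (fun x => (s + G x) ^ J) ≤ (1 + s / h) ^ J * av (fun x => G x ^ J) := by
  have h1 : (fun x => (s + G x) ^ J) =
      fun x => ∑ a ∈ range (J + 1), (s ^ a * (J.choose a : ℝ)) * G x ^ (J - a) := by
    funext x
    rw [add_pow]
    apply Finset.sum_congr rfl; intro a _; ring
  rw [h1, av_sum, add_comm (1 : ℝ) (s / h), add_pow, Finset.sum_mul]
  apply Finset.sum_le_sum
  intro a ha
  have haJ : a ≤ J := by simpa [Nat.lt_succ_iff] using ha
  rw [av_smul]
  have h2 := hG.av_pow_add hh.le hav a (J - a)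
  rw [Nat.sub_add_cancel haJ] at h2
  have hha : 0 < h ^ a := pow_pos hh a
  have h3 : av (fun x => G x ^ (J - a)) ≤ av (fun x => G x ^ J) / h ^ a := by
    rw [le_div_iff₀ hha]; linarith [h2]
  calc s ^ a * (J.choose a : ℝ) * av (fun x => G x ^ (J - a))
      ≤ s ^ a * (J.choose a : ℝ) * (av (fun x => G x ^ J) / h ^ a) := by
        apply mul_le_mul_of_nonneg_left h3; positivity
    _ = (s / h) ^ a * 1 ^ (J - a) * (J.choose a : ℝ) * av (fun x => G x ^ J) := by
        rw [div_pow, one_pow]; field_simp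

/-- **Light points.**  If `H = ∑ S_b` is bounded by `h` off the origin, and the numerical
conditions hold, then some nonzero point has all block sums at least `s`. -/
theorem exists_light {M k : ℕ} (φ : Fin M → Fin k → (W →+ ZMod 2)) (h s : ℝ)
    (hh : 0 < h) (hs : 0 ≤ s) (hkh : (k : ℝ) ≤ h)
    (hH : ∀ x : W, x ≠ 0 → |∑ b, ∑ i, sg (φ b i x)| ≤ h)
    (J l : ℕ) (hJ : Even J) (hlJ : 2 * l ≤ J)
    (hP2 : (h + M * k) ^ J * 4 ≤ Fintype.card W * h ^ J)
    (hP3 : (M : ℝ) * ((1 + s / h) ^ J * (2 * (3 * h) ^ (2 * l))) * 2 ≤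
      (J.choose (2 * l) : ℝ) * (k : ℝ) ^ l) :
    ∃ x : W, x ≠ 0 ∧ ∀ b, s ≤ ∑ i, sg (φ b i x) := by
  classical
  by_contra hcon
  push Not at hcon
  set S : Fin M → W → ℝ := fun b x => ∑ i, sg (φ b i x) with hS
  set G : Fin M → W → ℝ := fun b x => h + ∑ b' ∈ univ.erase b, S b' x with hG
  have hSPD : ∀ b, PD (S b) := fun b => PD.block (φ b)
  have hGPD : ∀ b, PD (G b) := fun b =>
    (PD.const hh.le).add (PD.sum _ fun b' _ => hSPD b')
  have hTPD : PD (fun x => h + ∑ b, S b x) :=
    (PD.const hh.le).add (PD.sum _ fun b' _ => hSPD b')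
  have hGav : ∀ b, h ≤ av (G b) := by
    intro b
    have : av (G b) = av (fun _ : W => h) + av (fun x => ∑ b' ∈ univ.erase b, S b' x) :=
      av_add _ _
    rw [this, av_const]
    have := (PD.sum (univ.erase b) fun b' _ => hSPD b').av_nonneg
    linarith
  have hTav : h ≤ av (fun x => h + ∑ b, S b x) := by
    have h1 : av (fun x => h + ∑ b, S b x) = av (fun _ : W => h) + av (fun x => ∑ b, S b x) :=
      av_add _ _
    rw [h1, av_const]
    have := (PD.sum univ fun b' _ => hSPD b').av_nonneg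
    linarith
  have hsplit : ∀ b x, h + ∑ b', S b' x = S b x + G b x := by
    intro b x
    have : ∑ b', S b' x = S b x + ∑ b' ∈ univ.erase b, S b' x :=
      (Finset.add_sum_erase univ (fun b' => S b' x) (Finset.mem_univ b)).symm
    rw [this]; simp only [hG]; ring
  set Q : ℝ := av (fun x => (h + ∑ b, S b x) ^ J) with hQ
  have hQpos : h ^ J ≤ Q := by
    calc h ^ J ≤ (av (fun x => h + ∑ b, S b x)) ^ J := pow_le_pow_left₀ hh.le hTav J
      _ ≤ Q := hTPD.av_pow_le J
  have hhJ : 0 < h ^ J := pow_pos hh J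
  have hcard : (0 : ℝ) < Fintype.card W := card_pos'
  have hSabs : ∀ b x, |S b x| ≤ k := fun b x => abs_sum_sg_le (φ b) x
  -- lower bound for Q
  have hF4 : ∀ b, (J.choose (2 * l) : ℝ) * (k : ℝ) ^ l * av (fun x => G b x ^ (J - 2 * l)) ≤ Q := by
    intro b
    have h1 : Q = ∑ a ∈ range (J + 1),
        (J.choose a : ℝ) * av (fun x => S b x ^ a * G b x ^ (J - a)) := by
      rw [hQ]
      have : (fun x => (h + ∑ b, S b x) ^ J) = fun x => ∑ a ∈ range (J + 1),
          (J.choose a : ℝ) * (S b x ^ a * G b x ^ (J - a)) := by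
        funext x
        rw [hsplit b x, add_pow]
        apply Finset.sum_congr rfl; intro a _; ring
      rw [this, av_sum]
      exact Finset.sum_congr rfl fun a _ => av_smul _ _
    have h2 : (J.choose (2 * l) : ℝ) * av (fun x => S b x ^ (2 * l) * G b x ^ (J - 2 * l)) ≤ Q := by
      rw [h1]
      apply Finset.single_le_sum
        (f := fun a => (J.choose a : ℝ) * av (fun x => S b x ^ a * G b x ^ (J - a)))
      · intro a _
        exact mul_nonneg (Nat.cast_nonneg _) (((hSPD b).pow a).mul ((hGPD b).pow _)).av_nonneg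
      · simp; omega
    have h3 : av (fun x => S b x ^ (2 * l)) * av (fun x => G b x ^ (J - 2 * l)) ≤
        av (fun x => S b x ^ (2 * l) * G b x ^ (J - 2 * l)) :=
      ((hSPD b).pow _).av_mul_le ((hGPD b).pow _)
    have h4 : (k : ℝ) ^ l ≤ av (fun x => S b x ^ (2 * l)) := by
      calc (k : ℝ) ^ l ≤ (av (fun x => S b x ^ 2)) ^ l :=
            pow_le_pow_left₀ (Nat.cast_nonneg _) (av_block_sq (φ b)) l
        _ ≤ av (fun x => (S b x ^ 2) ^ l) := ((hSPD b).pow 2).av_pow_le l
        _ = _ := by congr 1; funext x; rw [← pow_mul]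
    have h5 : 0 ≤ av (fun x => G b x ^ (J - 2 * l)) := ((hGPD b).pow _).av_nonneg
    have hc : (0 : ℝ) ≤ (J.choose (2 * l) : ℝ) := Nat.cast_nonneg _
    calc (J.choose (2 * l) : ℝ) * (k : ℝ) ^ l * av (fun x => G b x ^ (J - 2 * l))
        ≤ (J.choose (2 * l) : ℝ) * av (fun x => S b x ^ (2 * l)) *
            av (fun x => G b x ^ (J - 2 * l)) := by
          apply mul_le_mul_of_nonneg_right _ h5
          exact mul_le_mul_of_nonneg_left h4 hc
      _ ≤ (J.choose (2 * l) : ℝ) * av (fun x => S b x ^ (2 * l) * G b x ^ (J - 2 * l)) := by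
          rw [mul_assoc]; exact mul_le_mul_of_nonneg_left h3 hc
      _ ≤ Q := h2
  -- upper bound for the J-th moment
  have hG0 : ∀ b, |G b 0| ≤ h + M * k := by
    intro b
    have h1 : G b 0 = h + ∑ b' ∈ univ.erase b, S b' 0 := rfl
    rw [h1]
    calc |h + ∑ b' ∈ univ.erase b, S b' 0| ≤ |h| + |∑ b' ∈ univ.erase b, S b' 0| := abs_add_le _ _
      _ ≤ h + ∑ b' ∈ univ.erase b, |S b' 0| := by
          rw [abs_of_pos hh]
          gcongr
          exact Finset.abs_sum_le_sum_abs _ _
      _ ≤ h + ∑ _b' ∈ univ.erase b, (k : ℝ) := by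
          gcongr with b' _
          exact hSabs b' 0
      _ ≤ h + M * k := by
          simp only [Finset.sum_const, nsmul_eq_mul]
          gcongr
          calc (univ.erase b).card ≤ (univ : Finset (Fin M)).card := Finset.card_le_card (Finset.erase_subset _ _)
            _ = M := by simp
  have hGx : ∀ b (x : W), x ≠ 0 → |G b x| ≤ 3 * h := by
    intro b x hx
    have h1 : G b x = h + (∑ b', S b' x - S b x) := by
      have := hsplit b x; linarith
    rw [h1]
    have h2 := abs_le.mp (hH x hx)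
    have h3 := abs_le.mp (hSabs b x)
    rw [abs_le]
    constructor <;> [skip; skip] <;> simp only [hS] at h3 ⊢ <;> linarith [h2.1, h2.2, h3.1, h3.2]
  have hMk : 0 ≤ h + M * k := by positivity
  have hJeven : Even (J - 2 * l) := by
    obtain ⟨c, hc⟩ := hJ
    exact ⟨c - l, by omega⟩
  have hF5 : ∀ b, av (fun x => G b x ^ J) ≤
      (2 * (3 * h) ^ (2 * l)) * av (fun x => G b x ^ (J - 2 * l)) := by
    intro b
    have h1 : ∀ x : W, G b x ^ J ≤
        (3 * h) ^ (2 * l) * G b x ^ (J - 2 * l) + if x = 0 then (h + M * k) ^ J else 0 := by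
      intro x
      by_cases hx : x = 0
      · subst hx
        rw [if_pos rfl]
        have h2 : G b 0 ^ J ≤ (h + M * k) ^ J := by
          rw [← hJ.pow_abs]
          exact pow_le_pow_left₀ (abs_nonneg _) (hG0 b) J
        have h3 : 0 ≤ (3 * h) ^ (2 * l) * G b 0 ^ (J - 2 * l) :=
          mul_nonneg (by positivity) (hJeven.pow_nonneg _)
        linarith
      · rw [if_neg hx, add_zero]
        have h2 : G b x ^ J = G b x ^ (2 * l) * G b x ^ (J - 2 * l) := by
          rw [← pow_add]; congr 1; omega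
        rw [h2]
        apply mul_le_mul_of_nonneg_right _ (hJeven.pow_nonneg _)
        have h3 : Even (2 * l) := even_two_mul l
        rw [← h3.pow_abs]
        exact pow_le_pow_left₀ (abs_nonneg _) (hGx b x hx) _
    have h2 : av (fun x => G b x ^ J) ≤
        (3 * h) ^ (2 * l) * av (fun x => G b x ^ (J - 2 * l)) +
          (Fintype.card W : ℝ)⁻¹ * (h + M * k) ^ J := by
      calc av (fun x => G b x ^ J) ≤ av (fun x => (3 * h) ^ (2 * l) * G b x ^ (J - 2 * l) +
            if x = 0 then (h + M * k) ^ J else 0) := av_mono h1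
        _ = av (fun x => (3 * h) ^ (2 * l) * G b x ^ (J - 2 * l)) +
            av (fun x : W => if x = 0 then (h + M * k) ^ J else 0) := av_add _ _
        _ = _ := by
            rw [av_smul]
            congr 1
            simp [av]
    have h3 : (Fintype.card W : ℝ)⁻¹ * (h + M * k) ^ J ≤ h ^ J / 4 := by
      rw [inv_mul_le_iff₀ hcard]; linarith
    have h4 : h ^ J ≤ (3 * h) ^ (2 * l) * av (fun x => G b x ^ (J - 2 * l)) := by
      have h5 : h ^ J = h ^ (2 * l) * h ^ (J - 2 * l) := by
        rw [← pow_add]; congr 1; omega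
      rw [h5]
      apply mul_le_mul
      · exact pow_le_pow_left₀ hh.le (by linarith) _
      · calc h ^ (J - 2 * l) ≤ (av (G b)) ^ (J - 2 * l) := pow_le_pow_left₀ hh.le (hGav b) _
          _ ≤ _ := (hGPD b).av_pow_le _
      · positivity
      · positivity
    linarith
  -- the averaged shifted moments are small
  have hT : ∀ b, (M : ℝ) * av (fun x => (s + G b x) ^ J) ≤ Q / 2 := by
    intro b
    have h1 := (hGPD b).av_shift hh hs (hGav b) J
    have h2 := hF5 b
    have h3 := hF4 b
    have h5 : 0 ≤ av (fun x => G b x ^ (J - 2 * l)) := ((hGPD b).pow _).av_nonneg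
    have hc : (0 : ℝ) ≤ (1 + s / h) ^ J := by positivity
    have h6 : av (fun x => (s + G b x) ^ J) ≤
        ((1 + s / h) ^ J * (2 * (3 * h) ^ (2 * l))) * av (fun x => G b x ^ (J - 2 * l)) := by
      calc av (fun x => (s + G b x) ^ J) ≤ (1 + s / h) ^ J * av (fun x => G b x ^ J) := h1
        _ ≤ (1 + s / h) ^ J * ((2 * (3 * h) ^ (2 * l)) * av (fun x => G b x ^ (J - 2 * l))) :=
            mul_le_mul_of_nonneg_left h2 hc
        _ = _ := by ring
    have h7 : (M : ℝ) * av (fun x => (s + G b x) ^ J) ≤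
        (M : ℝ) * (((1 + s / h) ^ J * (2 * (3 * h) ^ (2 * l))) *
          av (fun x => G b x ^ (J - 2 * l))) :=
      mul_le_mul_of_nonneg_left h6 (Nat.cast_nonneg _)
    have h8 := mul_le_mul_of_nonneg_right hP3 h5
    nlinarith [h7, h8, h3]
  -- pointwise comparison
  have hpt : ∀ x : W, (h + ∑ b, S b x) ^ J ≤
      (∑ b, (s + G b x) ^ J) + if x = 0 then (h + M * k) ^ J else 0 := by
    intro x
    have hnn : ∀ b, 0 ≤ (s + G b x) ^ J := fun b => hJ.pow_nonneg _
    by_cases hx : x = 0
    · subst hx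
      rw [if_pos rfl]
      have h2 : (h + ∑ b, S b 0) ^ J ≤ (h + M * k) ^ J := by
        rw [← hJ.pow_abs]
        apply pow_le_pow_left₀ (abs_nonneg _)
        calc |h + ∑ b, S b 0| ≤ |h| + |∑ b, S b 0| := abs_add_le _ _
          _ ≤ h + ∑ b, |S b 0| := by
              rw [abs_of_pos hh]
              gcongr
              exact Finset.abs_sum_le_sum_abs _ _
          _ ≤ h + ∑ _b : Fin M, (k : ℝ) := by
              gcongr with b' _
              exact hSabs b' 0
          _ = h + M * k := by simp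
      have h3 : 0 ≤ ∑ b, (s + G b 0) ^ J := Finset.sum_nonneg fun b _ => hnn b
      linarith
    · rw [if_neg hx, add_zero]
      obtain ⟨b, hb⟩ := hcon x hx
      have h1 : 0 ≤ h + ∑ b, S b x := by
        have := (abs_le.mp (hH x hx)).1
        simp only [hS]; linarith
      have h2 : h + ∑ b, S b x ≤ s + G b x := by
        rw [hsplit b x]; simp only [hS] at hb ⊢; linarith
      calc (h + ∑ b, S b x) ^ J ≤ (s + G b x) ^ J := pow_le_pow_left₀ h1 h2 J
        _ ≤ ∑ b, (s + G b x) ^ J :=
            Finset.single_le_sum (f := fun b => (s + G b x) ^ J) (fun b _ => hnn b) (Finset.mem_univ b)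
  have hQle : Q ≤ (∑ b, av (fun x => (s + G b x) ^ J)) + h ^ J / 4 := by
    calc Q ≤ av (fun x => (∑ b, (s + G b x) ^ J) + if x = 0 then (h + M * k) ^ J else 0) :=
          av_mono hpt
      _ = av (fun x => ∑ b, (s + G b x) ^ J) +
            av (fun x : W => if x = 0 then (h + M * k) ^ J else 0) := av_add _ _
      _ = (∑ b, av (fun x => (s + G b x) ^ J)) + (Fintype.card W : ℝ)⁻¹ * (h + M * k) ^ J := by
          rw [av_sum]; congr 1; simp [av]
      _ ≤ _ := by
          have h3 : (Fintype.card W : ℝ)⁻¹ * (h + M * k) ^ J ≤ h ^ J / 4 := by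
            rw [inv_mul_le_iff₀ hcard]; linarith
          linarith
  have hsum : ∑ b, av (fun x => (s + G b x) ^ J) ≤ Q / 2 := by
    rcases Nat.eq_zero_or_pos M with hM | hM
    · subst hM
      simp only [Finset.univ_eq_empty, Finset.sum_empty]
      linarith
    · have hM' : (0 : ℝ) < M := by exact_mod_cast hM
      have h1 : (M : ℝ) * ∑ b, av (fun x => (s + G b x) ^ J) ≤ M * (Q / 2) := by
        rw [Finset.mul_sum]
        calc ∑ b, (M : ℝ) * av (fun x => (s + G b x) ^ J) ≤ ∑ _b : Fin M, Q / 2 :=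
              Finset.sum_le_sum fun b _ => hT b
          _ = M * (Q / 2) := by simp
      exact le_of_mul_le_mul_left h1 hM'
  linarith

end H355
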