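import Mathlib
import Pool.Agent.helper355_cosum.Light

/-! Random families of functionals. -/

namespace H355

open Finset BigOperators Module

/-- the vector space `F_2^n` -/
abbrev VV (n : ℕ) := Fin n → ZMod 2
/-- its dual -/
abbrev DD (n : ℕ) := Module.Dual (ZMod 2) (VV n)

noncomputable instance instFintypeDD (n : ℕ) : Fintype (DD n) :=
  @Fintype.ofFinite _ (Finite.of_injective (fun f : DD n => (f : VV n → ZMod 2)) DFunLike.coe_injective)

lemma card_DD (n : ℕ) : Fintype.card (DD n) = 2 ^ n := by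
  rw [Module.card_eq_pow_finrank (K := ZMod 2), Subspace.dual_finrank_eq, ZMod.card]
  simp

lemma sum_sg_dual {n : ℕ} {x : VV n} (hx : x ≠ 0) : ∑ g : DD n, sg (g x) = 0 := by
  let ev : DD n →+ ZMod 2 := AddMonoidHom.mk' (fun g => g x) (fun a b => by simp)
  have hev : ev ≠ 0 := by
    intro h
    apply hx
    rw [← Module.forall_dual_apply_eq_zero_iff (ZMod 2)]
    intro φ
    have := DFunLike.congr_fun h φ
    simpa [ev] using this
  exact sum_char ev hev

lemma exp_sg (t : ℝ) (a : ZMod 2) :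
    Real.exp (t * sg a) = Real.cosh t + sg a * Real.sinh t := by
  rcases zmod2_cases a with rfl | rfl
  · simp [sg, Real.cosh_add_sinh]
  · simp [sg, Real.cosh_eq, Real.sinh_eq]; ring

lemma sum_exp_dual {n : ℕ} {x : VV n} (hx : x ≠ 0) (t : ℝ) :
    ∑ g : DD n, Real.exp (t * sg (g x)) = 2 ^ n * Real.cosh t := by
  simp_rw [exp_sg]
  rw [Finset.sum_add_distrib, ← Finset.sum_mul, sum_sg_dual hx]
  simp [card_DD]

lemma sum_exp_blocks {n M k : ℕ} {x : VV n} (hx : x ≠ 0) (t : ℝ) :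
    ∑ g : Fin M → Fin k → DD n, Real.exp (t * ∑ b, ∑ i, sg (g b i x)) =
      (2 ^ n * Real.cosh t) ^ (k * M) := by
  have h1 : ∀ g : Fin M → Fin k → DD n, Real.exp (t * ∑ b, ∑ i, sg (g b i x)) =
      ∏ b, (fun u : Fin k → DD n => ∏ i, Real.exp (t * sg (u i x))) (g b) := by
    intro g
    beta_reduce
    rw [Finset.mul_sum, Real.exp_sum]
    apply Finset.prod_congr rfl; intro b _
    rw [Finset.mul_sum, Real.exp_sum]
  rw [Finset.sum_congr rfl fun g _ => h1 g]
  rw [← Fintype.sum_pow (fun u : Fin k → DD n => ∏ i, Real.exp (t * sg (u i x))) M]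
  rw [← Fintype.sum_pow (fun g : DD n => Real.exp (t * sg (g x))) k, sum_exp_dual hx, pow_mul]

lemma tail_one {n M k : ℕ} {x : VV n} (hx : x ≠ 0) (t h : ℝ) (ε : ℝ) (hε : ε = 1 ∨ ε = -1)
    (ht : 0 ≤ t) :
    ((univ.filter fun g : Fin M → Fin k → DD n => h < ε * ∑ b, ∑ i, sg (g b i x)).card : ℝ) *
      Real.exp (t * h) ≤ (2 ^ n) ^ (k * M) * Real.exp (t ^ 2 / 2) ^ (k * M) := by
  have hcosh : Real.cosh (t * ε) = Real.cosh t := by
    rcases hε with rfl | rfl
    · simp
    · rw [mul_neg_one, Real.cosh_neg]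
  calc ((univ.filter fun g : Fin M → Fin k → DD n => h < ε * ∑ b, ∑ i, sg (g b i x)).card : ℝ) *
      Real.exp (t * h)
      = ∑ g ∈ univ.filter (fun g : Fin M → Fin k → DD n => h < ε * ∑ b, ∑ i, sg (g b i x)),
          Real.exp (t * h) := by simp
    _ ≤ ∑ g ∈ univ.filter (fun g : Fin M → Fin k → DD n => h < ε * ∑ b, ∑ i, sg (g b i x)),
          Real.exp ((t * ε) * ∑ b, ∑ i, sg (g b i x)) := by
        apply Finset.sum_le_sum
        intro g hg
        have hg' : h < ε * ∑ b, ∑ i, sg (g b i x) := (Finset.mem_filter.mp hg).2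
        apply Real.exp_le_exp.mpr
        rw [mul_assoc]
        exact mul_le_mul_of_nonneg_left hg'.le ht
    _ ≤ ∑ g : Fin M → Fin k → DD n, Real.exp ((t * ε) * ∑ b, ∑ i, sg (g b i x)) :=
        Finset.sum_le_sum_of_subset_of_nonneg (Finset.filter_subset _ _)
          (fun g _ _ => (Real.exp_pos _).le)
    _ = (2 ^ n * Real.cosh t) ^ (k * M) := by rw [sum_exp_blocks hx, hcosh]
    _ ≤ (2 ^ n * Real.exp (t ^ 2 / 2)) ^ (k * M) := by
        apply pow_le_pow_left₀
        · have := Real.cosh_pos t; positivity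
        · exact mul_le_mul_of_nonneg_left (Real.cosh_le_exp_half_sq t) (by positivity)
    _ = _ := by rw [mul_pow]

/-- number of families for which some nonzero `x` has a large total sum -/
lemma tail_all {n M k : ℕ} (hMk : 0 < k * M) {h : ℝ} (hh : 0 ≤ h)
    (hbig : 2 * ((k * M : ℕ) : ℝ) * (n + 2) ≤ h ^ 2) :
    ((univ.filter fun g : Fin M → Fin k → DD n =>
      ∃ x : VV n, x ≠ 0 ∧ h < |∑ b, ∑ i, sg (g b i x)|).card : ℝ) * 2 <
      ((2 ^ n) ^ (k * M) : ℝ) := by
  classical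
  set N : ℝ := ((k * M : ℕ) : ℝ) with hN
  have hNpos : 0 < N := by rw [hN]; exact_mod_cast hMk
  set Ω : ℝ := ((2 ^ n) ^ (k * M) : ℝ) with hΩ
  have hΩpos : 0 < Ω := by rw [hΩ]; positivity
  set t : ℝ := h / N with ht
  have ht0 : 0 ≤ t := div_nonneg hh hNpos.le
  have hone : ∀ x : VV n, x ≠ 0 → ∀ ε : ℝ, (ε = 1 ∨ ε = -1) →
      ((univ.filter fun g : Fin M → Fin k → DD n => h < ε * ∑ b, ∑ i, sg (g b i x)).card : ℝ) ≤
        Ω * Real.exp (-(n + 2)) := by
    intro x hx ε hε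
    have h1 := tail_one (M := M) (k := k) hx t h ε hε ht0
    have h2 : Real.exp (t ^ 2 / 2) ^ (k * M) = Real.exp (N * (t ^ 2 / 2)) := by
      rw [← Real.exp_nat_mul]
    rw [h2] at h1
    have h3 : ((univ.filter fun g : Fin M → Fin k → DD n =>
        h < ε * ∑ b, ∑ i, sg (g b i x)).card : ℝ) ≤
        Ω * Real.exp (N * (t ^ 2 / 2)) / Real.exp (t * h) := by
      rw [le_div_iff₀ (Real.exp_pos _)]; exact h1
    have h4 : Ω * Real.exp (N * (t ^ 2 / 2)) / Real.exp (t * h) =
        Ω * Real.exp (-(h ^ 2 / (2 * N))) := by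
      rw [mul_div_assoc, ← Real.exp_sub]
      congr 2
      rw [ht]; field_simp; ring
    rw [h4] at h3
    refine h3.trans ?_
    apply mul_le_mul_of_nonneg_left _ hΩpos.le
    apply Real.exp_le_exp.mpr
    have : (n + 2 : ℝ) ≤ h ^ 2 / (2 * N) := by
      rw [le_div_iff₀ (by positivity)]; linarith
    linarith
  have hsub : (univ.filter fun g : Fin M → Fin k → DD n =>
      ∃ x : VV n, x ≠ 0 ∧ h < |∑ b, ∑ i, sg (g b i x)|) ⊆
      (univ.filter fun x : VV n => x ≠ 0).biUnion fun x =>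
        (univ.filter fun g : Fin M → Fin k → DD n => h < (1 : ℝ) * ∑ b, ∑ i, sg (g b i x)) ∪
        (univ.filter fun g : Fin M → Fin k → DD n => h < (-1 : ℝ) * ∑ b, ∑ i, sg (g b i x)) := by
    intro g hg
    obtain ⟨x, hx, hlt⟩ := (Finset.mem_filter.mp hg).2
    rw [Finset.mem_biUnion]
    refine ⟨x, by simp [hx], ?_⟩
    rw [Finset.mem_union, Finset.mem_filter, Finset.mem_filter]
    rcases lt_abs.mp hlt with h1 | h1
    · left; exact ⟨Finset.mem_univ _, by linarith⟩
    · right; exact ⟨Finset.mem_univ _, by linarith⟩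
  have hcardx : ((univ.filter fun x : VV n => x ≠ 0).card : ℝ) < 2 ^ n := by
    have h1 : (univ.filter fun x : VV n => x ≠ 0).card < (univ : Finset (VV n)).card := by
      apply Finset.card_lt_card
      rw [Finset.ssubset_iff_of_subset (Finset.filter_subset _ _)]
      exact ⟨0, Finset.mem_univ _, by simp⟩
    have h2 : (univ : Finset (VV n)).card = 2 ^ n := by
      simp [Finset.card_univ, ZMod.card]
    rw [h2] at h1
    exact_mod_cast h1
  have hle : ((univ.filter fun g : Fin M → Fin k → DD n =>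
      ∃ x : VV n, x ≠ 0 ∧ h < |∑ b, ∑ i, sg (g b i x)|).card : ℝ) ≤
      ((univ.filter fun x : VV n => x ≠ 0).card : ℝ) * (2 * (Ω * Real.exp (-(n + 2)))) := by
    have h1 := (Finset.card_le_card hsub).trans Finset.card_biUnion_le
    have h2 : ((univ.filter fun g : Fin M → Fin k → DD n =>
      ∃ x : VV n, x ≠ 0 ∧ h < |∑ b, ∑ i, sg (g b i x)|).card : ℝ) ≤
      ∑ x ∈ (univ.filter fun x : VV n => x ≠ 0),
        (((univ.filter fun g : Fin M → Fin k → DD n => h < (1 : ℝ) * ∑ b, ∑ i, sg (g b i x)) ∪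
        (univ.filter fun g : Fin M → Fin k → DD n =>
          h < (-1 : ℝ) * ∑ b, ∑ i, sg (g b i x))).card : ℝ) := by
      exact_mod_cast h1
    refine h2.trans ?_
    rw [← nsmul_eq_mul]
    apply Finset.sum_le_card_nsmul
    intro x hx
    have hx' : x ≠ 0 := (Finset.mem_filter.mp hx).2
    have h3 := Finset.card_union_le
      (univ.filter fun g : Fin M → Fin k → DD n => h < (1 : ℝ) * ∑ b, ∑ i, sg (g b i x))
      (univ.filter fun g : Fin M → Fin k → DD n => h < (-1 : ℝ) * ∑ b, ∑ i, sg (g b i x))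
    have h4 := hone x hx' 1 (Or.inl rfl)
    have h5 := hone x hx' (-1) (Or.inr rfl)
    have h3' : (((univ.filter fun g : Fin M → Fin k → DD n =>
        h < (1 : ℝ) * ∑ b, ∑ i, sg (g b i x)) ∪
        (univ.filter fun g : Fin M → Fin k → DD n =>
          h < (-1 : ℝ) * ∑ b, ∑ i, sg (g b i x))).card : ℝ) ≤
        ((univ.filter fun g : Fin M → Fin k → DD n =>
          h < (1 : ℝ) * ∑ b, ∑ i, sg (g b i x)).card : ℝ) +
        ((univ.filter fun g : Fin M → Fin k → DD n =>
          h < (-1 : ℝ) * ∑ b, ∑ i, sg (g b i x)).card : ℝ) := by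
      exact_mod_cast h3
    linarith
  have hexp : (2 : ℝ) ^ n * (2 * Real.exp (-(n + 2))) * 2 ≤ 1 := by
    have h1 : (2 : ℝ) ^ (n + 2) ≤ Real.exp (n + 2) := by
      have h2 : (2 : ℝ) ≤ Real.exp 1 := by
        have := Real.add_one_le_exp (1 : ℝ); linarith
      calc (2 : ℝ) ^ (n + 2) ≤ Real.exp 1 ^ (n + 2) := pow_le_pow_left₀ (by norm_num) h2 _
        _ = Real.exp (n + 2) := by
          rw [← Real.exp_nat_mul]; congr 1; push_cast; ring
    rw [Real.exp_neg]
    have h3 : 0 < Real.exp (n + 2) := Real.exp_pos _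
    have h4 : (2 : ℝ) ^ n * (2 * (Real.exp (↑n + 2))⁻¹) * 2 = 2 ^ (n + 2) / Real.exp (n + 2) := by
      rw [pow_add]; field_simp
    rw [h4, div_le_one h3]; exact h1
  have hpos : 0 < 2 * (Ω * Real.exp (-(n + 2))) := by positivity
  calc ((univ.filter fun g : Fin M → Fin k → DD n =>
      ∃ x : VV n, x ≠ 0 ∧ h < |∑ b, ∑ i, sg (g b i x)|).card : ℝ) * 2
      ≤ ((univ.filter fun x : VV n => x ≠ 0).card : ℝ) * (2 * (Ω * Real.exp (-(n + 2)))) * 2 := by
        apply mul_le_mul_of_nonneg_right hle (by norm_num)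
    _ < 2 ^ n * (2 * (Ω * Real.exp (-(n + 2)))) * 2 := by
        apply mul_lt_mul_of_pos_right _ (by norm_num)
        exact mul_lt_mul_of_pos_right hcardx hpos
    _ = Ω * ((2 : ℝ) ^ n * (2 * Real.exp (-(n + 2))) * 2) := by ring
    _ ≤ Ω * 1 := mul_le_mul_of_nonneg_left hexp hΩpos.le
    _ = Ω := mul_one _

end H355
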