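import Mathlib
import Pool.Agent.helper355_cosum.Rand

/-! Every subspace of given dimension has a heavy vector in some block. -/

namespace H355

open Finset BigOperators Module

/-- the block map of a family of functionals -/
noncomputable def bm {n k : ℕ} (u : Fin k → DD n) : VV n →ₗ[ZMod 2] (Fin k → ZMod 2) :=
  LinearMap.pi u

lemma bm_apply {n k : ℕ} (u : Fin k → DD n) (x : VV n) (i : Fin k) : bm u x i = u i x := rfl

/-- If no vector of `U` has more than `m` ones in the block, the block map has rank at most `m`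
on `U`. -/
lemma rank_le_of_no_heavy {n k : ℕ} (u : Fin k → DD n) (U : Submodule (ZMod 2) (VV n)) (m : ℕ)
    (hno : ∀ z ∈ U, (univ.filter fun i => u i z = 1).card ≤ m) :
    finrank (ZMod 2) (LinearMap.range ((bm u).domRestrict U)) ≤ m := by
  classical
  obtain ⟨z, hzU, hmax⟩ : ∃ z ∈ U, ∀ y ∈ U,
      (univ.filter fun i => u i y = 1).card ≤ (univ.filter fun i => u i z = 1).card := by
    have hfin : ((univ : Finset (VV n)).filter fun z => z ∈ U).Nonempty :=
      ⟨0, by simp⟩
    obtain ⟨z, hz, hm⟩ := Finset.exists_max_image _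
      (fun z => (univ.filter fun i => u i z = 1).card) hfin
    refine ⟨z, (Finset.mem_filter.mp hz).2, fun y hy => hm y ?_⟩
    simp [hy]
  set O : Finset (Fin k) := univ.filter fun i => u i z = 1 with hO
  let pr : (Fin k → ZMod 2) →ₗ[ZMod 2] (O → ZMod 2) :=
    LinearMap.funLeft (ZMod 2) (ZMod 2) (fun i : O => (i : Fin k))
  let R := LinearMap.range ((bm u).domRestrict U)
  have hinj : Function.Injective (pr.domRestrict R) := by
    rw [← LinearMap.ker_eq_bot, LinearMap.ker_eq_bot']
    rintro ⟨r, hr⟩ h0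
    obtain ⟨⟨y, hy⟩, hyr⟩ := hr
    have hrO : ∀ i ∈ O, r i = 0 := by
      intro i hi
      have := congrFun h0 ⟨i, hi⟩
      simpa [pr, LinearMap.funLeft_apply] using this
    have hry : ∀ i, r i = u i y := by
      intro i
      rw [← hyr]; rfl
    apply Subtype.ext
    change r = 0
    by_contra hne
    obtain ⟨i, hi⟩ : ∃ i, r i ≠ 0 := by
      by_contra hc
      push Not at hc
      exact hne (funext hc)
    have hi1 : r i = 1 := by
      rcases zmod2_cases (r i) with h | h
      · exact absurd h hi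
      · exact h
    have hiO : i ∉ O := fun h => hi (hrO i h)
    have hlt : (univ.filter fun j => u j z = 1).card < (univ.filter fun j => u j (z + y) = 1).card := by
      apply Finset.card_lt_card
      rw [Finset.ssubset_iff_of_subset]
      · refine ⟨i, ?_, hiO⟩
        rw [Finset.mem_filter]
        refine ⟨Finset.mem_univ _, ?_⟩
        rw [map_add, ← hry, hi1]
        have hz0 : u i z = 0 := by
          rcases zmod2_cases (u i z) with h | h
          · exact h
          · exact absurd (by simp [hO, h]) hiO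
        rw [hz0, zero_add]
      · intro j hj
        have hjO : j ∈ O := hj
        have hj1 := (Finset.mem_filter.mp hj).2
        rw [Finset.mem_filter]
        refine ⟨Finset.mem_univ _, ?_⟩
        rw [map_add, hj1, ← hry, hrO j hjO, add_zero]
    exact absurd (hmax (z + y) (U.add_mem hzU hy)) (not_le.mpr hlt)
  have h1 := LinearMap.finrank_le_finrank_of_injective hinj
  have h2 : finrank (ZMod 2) (O → ZMod 2) = O.card := by simp
  rw [h2] at h1
  exact h1.trans (hno z hzU)

/-- a subspace of `F_2^k` of codimension at least `s` is killed by a surjection onto `F_2^s` -/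
lemma exists_surj_of_rank {k s : ℕ} (R : Submodule (ZMod 2) (Fin k → ZMod 2))
    (h : finrank (ZMod 2) R + s ≤ k) :
    ∃ c : (Fin k → ZMod 2) →ₗ[ZMod 2] (Fin s → ZMod 2), Function.Surjective c ∧ ∀ r ∈ R, c r = 0 := by
  have h1 := R.finrank_quotient_add_finrank
  have h2 : finrank (ZMod 2) (Fin k → ZMod 2) = k := by simp
  rw [h2] at h1
  have hs : s ≤ finrank (ZMod 2) ((Fin k → ZMod 2) ⧸ R) := by omega
  set d := finrank (ZMod 2) ((Fin k → ZMod 2) ⧸ R) with hd
  have h3 : finrank (ZMod 2) (Fin d → ZMod 2) = d := by simp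
  let e : ((Fin k → ZMod 2) ⧸ R) ≃ₗ[ZMod 2] (Fin d → ZMod 2) :=
    LinearEquiv.ofFinrankEq _ _ (by rw [h3])
  let p : (Fin d → ZMod 2) →ₗ[ZMod 2] (Fin s → ZMod 2) :=
    LinearMap.funLeft (ZMod 2) (ZMod 2) (Fin.castLE hs)
  have hp : Function.Surjective p :=
    LinearMap.funLeft_surjective_of_injective _ _ _ (Fin.castLE_injective hs)
  refine ⟨p ∘ₗ e.toLinearMap ∘ₗ R.mkQ, ?_, ?_⟩
  · exact hp.comp (e.surjective.comp R.mkQ_surjective)
  · intro r hr
    have : R.mkQ r = 0 := by simpa using hr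
    simp [this]

/-- the linear map `u ↦ c ∘ bm u ∘ e` -/
noncomputable def Phi {n k s v : ℕ} (c : (Fin k → ZMod 2) →ₗ[ZMod 2] (Fin s → ZMod 2))
    (e : (Fin v → ZMod 2) →ₗ[ZMod 2] VV n) :
    (Fin k → DD n) →ₗ[ZMod 2] ((Fin v → ZMod 2) →ₗ[ZMod 2] (Fin s → ZMod 2)) where
  toFun u := c ∘ₗ (bm u) ∘ₗ e
  map_add' u u' := by
    apply LinearMap.ext
    intro y
    simp only [LinearMap.comp_apply, LinearMap.add_apply]
    rw [← map_add]
    rfl
  map_smul' a u := by
    apply LinearMap.ext
    intro y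
    simp only [LinearMap.comp_apply, LinearMap.smul_apply, RingHom.id_apply]
    rw [← map_smul]
    rfl

lemma Phi_surj {n k s v : ℕ} (c : (Fin k → ZMod 2) →ₗ[ZMod 2] (Fin s → ZMod 2))
    (e : (Fin v → ZMod 2) →ₗ[ZMod 2] VV n) (hc : Function.Surjective c)
    (he : Function.Injective e) : Function.Surjective (Phi c e) := by
  obtain ⟨d, hd⟩ := c.exists_rightInverse_of_surjective (LinearMap.range_eq_top.mpr hc)
  obtain ⟨f, hf⟩ := e.exists_leftInverse_of_injective (LinearMap.ker_eq_bot.mpr he)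
  intro T
  refine ⟨fun i => (LinearMap.proj i) ∘ₗ d ∘ₗ T ∘ₗ f, ?_⟩
  have h1 : bm (fun i => (LinearMap.proj i) ∘ₗ d ∘ₗ T ∘ₗ f) = d ∘ₗ T ∘ₗ f := by
    ext x i
    rfl
  change c ∘ₗ (bm (fun i => (LinearMap.proj i) ∘ₗ d ∘ₗ T ∘ₗ f)) ∘ₗ e = T
  rw [h1]
  apply LinearMap.ext
  intro y
  have h2 : f (e y) = y := LinearMap.congr_fun hf y
  have h3 : c (d (T y)) = T y := LinearMap.congr_fun hd (T y)
  simp only [LinearMap.comp_apply, h2, h3]

lemma card_ker_Phi {n k s v : ℕ} (c : (Fin k → ZMod 2) →ₗ[ZMod 2] (Fin s → ZMod 2))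
    (e : (Fin v → ZMod 2) →ₗ[ZMod 2] VV n) (hc : Function.Surjective c)
    (he : Function.Injective e) :
    Nat.card (LinearMap.ker (Phi c e)) * 2 ^ (s * v) = 2 ^ (n * k) := by
  have h1 := (Phi c e).finrank_range_add_finrank_ker
  have h2 : finrank (ZMod 2) (LinearMap.range (Phi c e)) = v * s := by
    rw [LinearMap.range_eq_top.mpr (Phi_surj c e hc he), finrank_top, Module.finrank_linearMap]
    simp
  have h3 : finrank (ZMod 2) (Fin k → DD n) = k * n := by
    rw [Module.finrank_pi_fintype]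
    simp [Subspace.dual_finrank_eq]
  have h4 : Nat.card (LinearMap.ker (Phi c e)) = 2 ^ finrank (ZMod 2) (LinearMap.ker (Phi c e)) := by
    have := Module.natCard_eq_pow_finrank (K := ZMod 2) (V := LinearMap.ker (Phi c e))
    simpa using this
  rw [h4, ← pow_add]
  congr 1
  rw [h2, h3] at h1
  rw [mul_comm s v, mul_comm n k]
  omega

end H355
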