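import Mathlib
import Pool.Agent.helper355_cosum.Heavy

/-! Counting: a random family of functionals is good. -/

namespace H355

open Finset BigOperators Module

noncomputable instance instFintypeHom (a b : ℕ) :
    Fintype ((Fin a → ZMod 2) →ₗ[ZMod 2] (Fin b → ZMod 2)) :=
  @Fintype.ofFinite _ (Finite.of_injective
    (fun f : (Fin a → ZMod 2) →ₗ[ZMod 2] (Fin b → ZMod 2) => (f : (Fin a → ZMod 2) → (Fin b → ZMod 2)))
    DFunLike.coe_injective)

lemma card_Hom (a b : ℕ) :
    Fintype.card ((Fin a → ZMod 2) →ₗ[ZMod 2] (Fin b → ZMod 2)) = 2 ^ (a * b) := by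
  rw [Module.card_eq_pow_finrank (K := ZMod 2), Module.finrank_linearMap, ZMod.card]
  simp

open Classical in
/-- blocks that are degenerate on the subspace parametrised by `e` -/
noncomputable def degen (n k s v : ℕ) (e : (Fin v → ZMod 2) →ₗ[ZMod 2] VV n) :
    Finset (Fin k → DD n) :=
  univ.filter fun u => ∃ c : (Fin k → ZMod 2) →ₗ[ZMod 2] (Fin s → ZMod 2),
    Function.Surjective c ∧ Phi c e u = 0

lemma card_degen_le {n k s v : ℕ} (e : (Fin v → ZMod 2) →ₗ[ZMod 2] VV n)
    (he : Function.Injective e) :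
    (degen n k s v e).card * 2 ^ (s * v) ≤ 2 ^ (k * s) * 2 ^ (n * k) := by
  classical
  have hsub : degen n k s v e ⊆
      (univ.filter fun c : (Fin k → ZMod 2) →ₗ[ZMod 2] (Fin s → ZMod 2) =>
        Function.Surjective c).biUnion fun c => univ.filter fun u => Phi c e u = 0 := by
    intro u hu
    obtain ⟨c, hc, h0⟩ := (Finset.mem_filter.mp hu).2
    rw [Finset.mem_biUnion]
    exact ⟨c, by simp [hc], by simp [h0]⟩
  have h1 := (Finset.card_le_card hsub).trans Finset.card_biUnion_le
  have h2 : ∀ c ∈ (univ.filter fun c : (Fin k → ZMod 2) →ₗ[ZMod 2] (Fin s → ZMod 2) =>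
        Function.Surjective c), (univ.filter fun u : Fin k → DD n => Phi c e u = 0).card * 2 ^ (s * v)
        = 2 ^ (n * k) := by
    intro c hc
    have hc' : Function.Surjective c := (Finset.mem_filter.mp hc).2
    rw [← card_ker_Phi c e hc' he]
    congr 1
    rw [Nat.card_eq_fintype_card, Fintype.card_subtype]
    congr 1
    ext u
    simp
  calc (degen n k s v e).card * 2 ^ (s * v)
      ≤ (∑ c ∈ (univ.filter fun c : (Fin k → ZMod 2) →ₗ[ZMod 2] (Fin s → ZMod 2) =>
        Function.Surjective c), (univ.filter fun u : Fin k → DD n => Phi c e u = 0).card) *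
          2 ^ (s * v) := Nat.mul_le_mul_right _ h1
    _ = ∑ c ∈ (univ.filter fun c : (Fin k → ZMod 2) →ₗ[ZMod 2] (Fin s → ZMod 2) =>
        Function.Surjective c), (univ.filter fun u : Fin k → DD n => Phi c e u = 0).card *
          2 ^ (s * v) := by rw [Finset.sum_mul]
    _ = ∑ c ∈ (univ.filter fun c : (Fin k → ZMod 2) →ₗ[ZMod 2] (Fin s → ZMod 2) =>
        Function.Surjective c), 2 ^ (n * k) := Finset.sum_congr rfl h2
    _ = (univ.filter fun c : (Fin k → ZMod 2) →ₗ[ZMod 2] (Fin s → ZMod 2) =>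
        Function.Surjective c).card * 2 ^ (n * k) := by rw [Finset.sum_const, smul_eq_mul]
    _ ≤ 2 ^ (k * s) * 2 ^ (n * k) := by
        apply Nat.mul_le_mul_right
        calc _ ≤ (univ : Finset ((Fin k → ZMod 2) →ₗ[ZMod 2] (Fin s → ZMod 2))).card :=
              Finset.card_filter_le _ _
          _ = 2 ^ (k * s) := by rw [Finset.card_univ, card_Hom]

open Classical in
/-- families with a subspace of dimension `v` without heavy vectors -/
noncomputable def noHeavy (n k s v M : ℕ) : Finset (Fin M → Fin k → DD n) :=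
  univ.filter fun g => ∃ U : Submodule (ZMod 2) (VV n), finrank (ZMod 2) U = v ∧
    ∀ b, ∀ z ∈ U, (univ.filter fun i => g b i z = 1).card + s ≤ k

lemma noHeavy_sub {n k s v M : ℕ} (g : Fin M → Fin k → DD n) (hg : g ∈ noHeavy n k s v M) :
    ∃ e : (Fin v → ZMod 2) →ₗ[ZMod 2] VV n, Function.Injective e ∧
      ∀ b, g b ∈ degen n k s v e := by
  classical
  obtain ⟨U, hU, hno⟩ := (Finset.mem_filter.mp hg).2
  have h3 : finrank (ZMod 2) (Fin v → ZMod 2) = v := by simp
  let e0 : (Fin v → ZMod 2) ≃ₗ[ZMod 2] U := LinearEquiv.ofFinrankEq _ _ (by rw [h3, hU])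
  refine ⟨U.subtype ∘ₗ e0.toLinearMap, ?_, ?_⟩
  · exact U.injective_subtype.comp e0.injective
  · intro b
    by_cases hsk : s ≤ k
    · have h1 := rank_le_of_no_heavy (g b) U (k - s) (fun z hz => by have := hno b z hz; omega)
      obtain ⟨c, hc, hker⟩ := exists_surj_of_rank (s := s) _ (by omega :
        finrank (ZMod 2) (LinearMap.range ((bm (g b)).domRestrict U)) + s ≤ k)
      rw [degen, Finset.mem_filter]
      refine ⟨Finset.mem_univ _, c, hc, ?_⟩
      change c ∘ₗ (bm (g b)) ∘ₗ (U.subtype ∘ₗ e0.toLinearMap) = 0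
      apply LinearMap.ext
      intro y
      change c (bm (g b) (e0 y : VV n)) = 0
      apply hker
      exact ⟨e0 y, rfl⟩
    · have := hno b 0 U.zero_mem
      omega

lemma card_noHeavy {n k s v M : ℕ} :
    (noHeavy n k s v M).card * 2 ^ (s * v * M) ≤ 2 ^ (n * v + k * s * M) * (2 ^ n) ^ (k * M) := by
  classical
  have hsub : noHeavy n k s v M ⊆
      (univ.filter fun e : (Fin v → ZMod 2) →ₗ[ZMod 2] VV n => Function.Injective e).biUnion
        fun e => Fintype.piFinset (fun _ : Fin M => degen n k s v e) := by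
    intro g hg
    obtain ⟨e, he, hb⟩ := noHeavy_sub g hg
    rw [Finset.mem_biUnion]
    refine ⟨e, by simp [he], ?_⟩
    rw [Fintype.mem_piFinset]
    exact hb
  have h1 := (Finset.card_le_card hsub).trans Finset.card_biUnion_le
  have h2 : ∀ e ∈ (univ.filter fun e : (Fin v → ZMod 2) →ₗ[ZMod 2] VV n => Function.Injective e),
      (Fintype.piFinset (fun _ : Fin M => degen n k s v e)).card * 2 ^ (s * v * M) ≤
        (2 ^ (k * s) * 2 ^ (n * k)) ^ M := by
    intro e he
    have he' : Function.Injective e := (Finset.mem_filter.mp he).2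
    rw [Fintype.card_piFinset, Finset.prod_const, Finset.card_univ, Fintype.card_fin, pow_mul,
      ← mul_pow]
    exact Nat.pow_le_pow_left (card_degen_le e he') M
  calc (noHeavy n k s v M).card * 2 ^ (s * v * M)
      ≤ (∑ e ∈ (univ.filter fun e : (Fin v → ZMod 2) →ₗ[ZMod 2] VV n => Function.Injective e),
          (Fintype.piFinset (fun _ : Fin M => degen n k s v e)).card) * 2 ^ (s * v * M) :=
        Nat.mul_le_mul_right _ h1
    _ = ∑ e ∈ (univ.filter fun e : (Fin v → ZMod 2) →ₗ[ZMod 2] VV n => Function.Injective e),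
          (Fintype.piFinset (fun _ : Fin M => degen n k s v e)).card * 2 ^ (s * v * M) := by
        rw [Finset.sum_mul]
    _ ≤ ∑ _e ∈ (univ.filter fun e : (Fin v → ZMod 2) →ₗ[ZMod 2] VV n => Function.Injective e),
          (2 ^ (k * s) * 2 ^ (n * k)) ^ M := Finset.sum_le_sum h2
    _ = (univ.filter fun e : (Fin v → ZMod 2) →ₗ[ZMod 2] VV n => Function.Injective e).card *
          (2 ^ (k * s) * 2 ^ (n * k)) ^ M := by rw [Finset.sum_const, smul_eq_mul]
    _ ≤ 2 ^ (v * n) * (2 ^ (k * s) * 2 ^ (n * k)) ^ M := by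
        apply Nat.mul_le_mul_right
        calc _ ≤ (univ : Finset ((Fin v → ZMod 2) →ₗ[ZMod 2] VV n)).card :=
              Finset.card_filter_le _ _
          _ = 2 ^ (v * n) := by rw [Finset.card_univ, card_Hom]
    _ = 2 ^ (n * v + k * s * M) * (2 ^ n) ^ (k * M) := by
        rw [mul_pow, ← pow_mul, ← pow_mul, ← pow_mul, ← mul_assoc, ← pow_add]
        congr 2
        · ring
        · ring

/-- existence of a good family -/
theorem exists_family {n k s v M : ℕ} (hMk : 0 < k * M) {h : ℝ} (hh : 0 ≤ h)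
    (hbig : 2 * ((k * M : ℕ) : ℝ) * (n + 2) ≤ h ^ 2)
    (hcount : n * v + k * s * M + 1 ≤ s * v * M) :
    ∃ g : Fin M → Fin k → DD n,
      (∀ x : VV n, x ≠ 0 → |∑ b, ∑ i, sg (g b i x)| ≤ h) ∧
      (∀ U : Submodule (ZMod 2) (VV n), finrank (ZMod 2) U = v →
        ∃ b, ∃ z ∈ U, k < (univ.filter fun i => g b i z = 1).card + s) := by
  classical
  set A := univ.filter fun g : Fin M → Fin k → DD n =>
      ∃ x : VV n, x ≠ 0 ∧ h < |∑ b, ∑ i, sg (g b i x)| with hA
  have hA2 : A.card * 2 < (2 ^ n) ^ (k * M) := by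
    have := tail_all (n := n) hMk hh hbig
    exact_mod_cast this
  have hB2 : (noHeavy n k s v M).card * 2 ≤ (2 ^ n) ^ (k * M) := by
    have h1 := card_noHeavy (n := n) (k := k) (s := s) (v := v) (M := M)
    have h2 : 2 ^ (n * v + k * s * M) * 2 ≤ 2 ^ (s * v * M) := by
      rw [← pow_succ]
      exact Nat.pow_le_pow_right (by norm_num) hcount
    have hpos : 0 < 2 ^ (s * v * M) := by positivity
    have h3 : (noHeavy n k s v M).card * 2 * 2 ^ (s * v * M) ≤
        (2 ^ n) ^ (k * M) * 2 ^ (s * v * M) := by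
      calc (noHeavy n k s v M).card * 2 * 2 ^ (s * v * M)
          = ((noHeavy n k s v M).card * 2 ^ (s * v * M)) * 2 := by ring
        _ ≤ (2 ^ (n * v + k * s * M) * (2 ^ n) ^ (k * M)) * 2 := Nat.mul_le_mul_right _ h1
        _ = (2 ^ n) ^ (k * M) * (2 ^ (n * v + k * s * M) * 2) := by ring
        _ ≤ _ := Nat.mul_le_mul_left _ h2
    exact Nat.le_of_mul_le_mul_right h3 hpos
  have htot : (univ : Finset (Fin M → Fin k → DD n)).card = (2 ^ n) ^ (k * M) := by
    rw [Finset.card_univ]
    simp only [Fintype.card_fun, Fintype.card_fin, card_DD]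
    rw [← pow_mul]
  have hlt : (A ∪ noHeavy n k s v M).card < (univ : Finset (Fin M → Fin k → DD n)).card := by
    rw [htot]
    have := Finset.card_union_le A (noHeavy n k s v M)
    omega
  obtain ⟨g, hg⟩ : ∃ g, g ∉ A ∪ noHeavy n k s v M := by
    by_contra hc
    push Not at hc
    have : (univ : Finset (Fin M → Fin k → DD n)) ⊆ A ∪ noHeavy n k s v M := fun g _ => hc g
    exact absurd (Finset.card_le_card this) (not_le.mpr hlt)
  rw [Finset.mem_union, not_or] at hg
  refine ⟨g, ?_, ?_⟩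
  · intro x hx
    by_contra hc
    apply hg.1
    rw [hA, Finset.mem_filter]
    exact ⟨Finset.mem_univ _, x, hx, not_le.mp hc⟩
  · intro U hU
    by_contra hc
    push Not at hc
    apply hg.2
    rw [noHeavy, Finset.mem_filter]
    exact ⟨Finset.mem_univ _, U, hU, hc⟩

end H355
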