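import Mathlib
import Pool.Agent.helper355_cosum.Count

/-! Assembly: the sets `X`. -/

namespace H355

open Finset BigOperators Module
open scoped Pointwise

/-- the set of points that are light in all blocks -/
def lightSet {n k M : ℕ} (g : Fin M → Fin k → DD n) (s : ℕ) : Set (VV n) :=
  {x | ∀ b, (s : ℝ) ≤ ∑ i, sg (g b i x)}

lemma sum_sg_eq {n k : ℕ} (u : Fin k → DD n) (z : VV n) :
    ∑ i, sg (u i z) = k - 2 * ((univ.filter fun i => u i z = 1).card : ℝ) := by
  have h1 : ∀ i, sg (u i z) = 1 - 2 * (if u i z = 1 then (1 : ℝ) else 0) := by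
    intro i
    rcases zmod2_cases (u i z) with h | h <;> rw [h] <;> simp [sg]
    norm_num
  simp_rw [h1]
  rw [Finset.sum_sub_distrib, ← Finset.mul_sum]
  simp

lemma sum_sg_add_le {n k : ℕ} (u : Fin k → DD n) (x y : VV n) :
    ∑ i, sg (u i x) + ∑ i, sg (u i y) ≤ k + ∑ i, sg (u i (x + y)) := by
  rw [← Finset.sum_add_distrib]
  have h1 : ∀ i, sg (u i x) + sg (u i y) ≤ 1 + sg (u i (x + y)) := by
    intro i
    rw [map_add, sg_add]
    nlinarith [sg_le_one (u i x), sg_le_one (u i y),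
      mul_nonneg (sub_nonneg.mpr (sg_le_one (u i x))) (sub_nonneg.mpr (sg_le_one (u i y)))]
  calc ∑ i, (sg (u i x) + sg (u i y)) ≤ ∑ i, (1 + sg (u i (x + y))) :=
        Finset.sum_le_sum fun i _ => h1 i
    _ = _ := by rw [Finset.sum_add_distrib]; simp

lemma heavy_not_mem {n k M s : ℕ} (g : Fin M → Fin k → DD n) {b : Fin M} {z : VV n}
    (hz : k < (univ.filter fun i => g b i z = 1).card + s) :
    z ∉ lightSet g s + lightSet g s := by
  rintro ⟨x, hx, y, hy, rfl⟩
  have h1 := sum_sg_add_le (g b) x y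
  have h2 := sum_sg_eq (g b) (x + y)
  have h3 : (s : ℝ) ≤ ∑ i, sg (g b i x) := hx b
  have h4 : (s : ℝ) ≤ ∑ i, sg (g b i y) := hy b
  have h5 : (k : ℝ) + 1 ≤ ((univ.filter fun i => g b i (x + y) = 1).card : ℝ) + s := by
    exact_mod_cast hz
  linarith

lemma pow_le_choose_mul (L r : ℕ) : L ^ r ≤ (r * L).choose r := by
  rcases Nat.eq_zero_or_pos L with hL | hL
  · subst hL
    rcases Nat.eq_zero_or_pos r with hr | hr
    · subst hr; simp
    · rw [zero_pow hr.ne']; exact Nat.zero_le _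
  induction r with
  | zero => simp
  | succ r ih =>
    have hN : 1 ≤ (r + 1) * L := Nat.mul_pos (Nat.succ_pos r) hL
    obtain ⟨N, hN'⟩ : ∃ N, (r + 1) * L = N + 1 := ⟨(r + 1) * L - 1, by omega⟩
    have h1 := Nat.add_one_mul_choose_eq N r
    have h2 : r * L ≤ N := by
      have : (r + 1) * L = r * L + L := by ring
      omega
    have h3 : (r * L).choose r ≤ N.choose r := Nat.choose_le_choose r h2
    rw [hN']
    have h4 : (r + 1) * (L * N.choose r) = (r + 1) * (N + 1).choose (r + 1) := by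
        calc (r + 1) * (L * N.choose r) = ((r + 1) * L) * N.choose r := by ring
        _ = (N + 1) * N.choose r := by rw [hN']
        _ = (N + 1).choose (r + 1) * (r + 1) := h1
        _ = _ := by ring
    have h6 : L * N.choose r = (N + 1).choose (r + 1) :=
      Nat.eq_of_mul_eq_mul_left (Nat.succ_pos r) h4
    rw [← h6, pow_succ, mul_comm]
    exact Nat.mul_le_mul_left L (ih.trans h3)

lemma one_add_inv_pow_le (N : ℕ) (hN : 0 < N) : (1 + 1 / (N : ℝ)) ^ N ≤ 4 := by
  have hN' : (0 : ℝ) < N := by exact_mod_cast hN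
  calc (1 + 1 / (N : ℝ)) ^ N ≤ (Real.exp (1 / N)) ^ N := by
        apply pow_le_pow_left₀ (by positivity)
        have := Real.add_one_le_exp (1 / (N : ℝ)); linarith
    _ = Real.exp 1 := by
        rw [← Real.exp_nat_mul]; congr 1; field_simp
    _ ≤ 4 := by
        have := Real.exp_one_lt_d9; linarith

/-- the dimension bound for subspaces avoiding `X` -/
def wdim (n q : ℕ) : ℕ := 2 + (Nat.log 2 q + 5) * (24 * (Nat.log 2 n + 1) * (5 * n / q + 1))

theorem exists_set {n q : ℕ} (hq : 3 ≤ q) (hqn : q ^ 5 ≤ n) :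
    ∃ X : Set (VV n),
      (∀ W : Submodule (ZMod 2) (VV n), (∀ x ∈ W, x ≠ 0 → x ∉ X) →
        finrank (ZMod 2) W < wdim n q) ∧
      (∀ U : Submodule (ZMod 2) (VV n), (∀ z ∈ U, z ≠ 0 → z ∈ X + X) →
        finrank (ZMod 2) U < 1152 * q ^ 4) := by
  classical
  set s : ℕ := q ^ 2 with hs
  set k : ℕ := 576 * q ^ 4 with hk
  set M : ℕ := 2 * n / q ^ 2 + 1 with hM
  set h' : ℕ := 5 * n / q + 1 with hh'
  set h : ℝ := 24 * (q : ℝ) ^ 2 * h' with hh
  set l : ℕ := Nat.log 2 n + 1 with hl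
  set J : ℕ := 24 * l * h' with hJ
  have hq0 : 0 < q := by omega
  have hqr : (3 : ℝ) ≤ q := by exact_mod_cast hq
  have hqr0 : (0 : ℝ) < q := by linarith
  have hn243 : 243 ≤ n := by
    calc 243 = 3 ^ 5 := by norm_num
      _ ≤ q ^ 5 := Nat.pow_le_pow_left hq 5
      _ ≤ n := hqn
  have hnr : (243 : ℝ) ≤ n := by exact_mod_cast hn243
  have hqnr : (q : ℝ) ^ 5 ≤ n := by exact_mod_cast hqn
  have hk0 : 0 < k := by positivity
  have hM0 : 0 < M := Nat.succ_pos _
  have hh'0 : 0 < h' := Nat.succ_pos _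
  have hh'r : (0 : ℝ) < h' := by exact_mod_cast hh'0
  have hhpos : 0 < h := by positivity
  -- lower bound on h'
  have hh'lb : 5 * (n : ℝ) ≤ q * h' := by
    have h1 : 5 * n < q * h' := by
      have := Nat.lt_mul_div_succ (5 * n) hq0
      simpa [hh'] using this
    exact_mod_cast h1.le
  have hhlb : 120 * (n : ℝ) * q ≤ h := by
    calc 120 * (n : ℝ) * q = 24 * q * (5 * n) := by ring
      _ ≤ 24 * q * (q * h') := by gcongr
      _ = h := by rw [hh]; ring
  -- bound on M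
  have hMub : (M : ℝ) * q ^ 2 ≤ 2 * n + q ^ 2 := by
    have h1 : (2 * n / q ^ 2) * q ^ 2 ≤ 2 * n := Nat.div_mul_le_self _ _
    have h2 : M * q ^ 2 ≤ 2 * n + q ^ 2 := by
      rw [hM, add_mul, one_mul]; omega
    exact_mod_cast h2
  have hMlb : 2 * n + 1 ≤ s * M := by
    have := Nat.lt_mul_div_succ (2 * n) (show 0 < q ^ 2 by positivity)
    simpa [hM, hs] using this
  have hkr : (k : ℝ) = 576 * (q : ℝ) ^ 4 := by rw [hk]; push_cast; ring
  have hq2n : (q : ℝ) ^ 2 * 27 ≤ (n : ℝ) := by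
    calc (q : ℝ) ^ 2 * 27 = (q : ℝ) ^ 2 * 3 ^ 3 := by norm_num
      _ ≤ (q : ℝ) ^ 2 * (q : ℝ) ^ 3 := by gcongr
      _ = (q : ℝ) ^ 5 := by ring
      _ ≤ (n : ℝ) := hqnr
  have hMk : (M : ℝ) * (k : ℝ) ≤ 1200 * (n : ℝ) * (q : ℝ) ^ 2 := by
    rw [hkr]
    calc (M : ℝ) * (576 * (q : ℝ) ^ 4) = 576 * (q : ℝ) ^ 2 * ((M : ℝ) * (q : ℝ) ^ 2) := by ring
      _ ≤ 576 * (q : ℝ) ^ 2 * (2 * (n : ℝ) + (q : ℝ) ^ 2) := by gcongr
      _ ≤ 576 * (q : ℝ) ^ 2 * (2 * (n : ℝ) + (n : ℝ) / 27) := by gcongr; linarith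
      _ ≤ 1200 * (n : ℝ) * (q : ℝ) ^ 2 := by
        have : (0 : ℝ) ≤ (n : ℝ) * (q : ℝ) ^ 2 := by positivity
        nlinarith
  -- the random family
  have hbig : 2 * ((k * M : ℕ) : ℝ) * (n + 2) ≤ h ^ 2 := by
    have h1 : ((k * M : ℕ) : ℝ) ≤ 1200 * (n : ℝ) * (q : ℝ) ^ 2 := by
      push_cast; linarith [hMk, mul_comm (k : ℝ) M]
    calc 2 * ((k * M : ℕ) : ℝ) * (n + 2)
        ≤ 2 * (1200 * (n : ℝ) * (q : ℝ) ^ 2) * ((n : ℝ) + (n : ℝ)) := by
          gcongr; linarith
      _ = 4800 * ((n : ℝ) * (q : ℝ)) ^ 2 := by ring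
      _ ≤ 14400 * ((n : ℝ) * (q : ℝ)) ^ 2 := by
          have : (0 : ℝ) ≤ ((n : ℝ) * q) ^ 2 := by positivity
          linarith
      _ = (120 * (n : ℝ) * q) ^ 2 := by ring
      _ ≤ h ^ 2 := by
          apply pow_le_pow_left₀ (by positivity) hhlb
  have hcount : n * (2 * k) + k * s * M + 1 ≤ s * (2 * k) * M := by
    have h1 : k * (2 * n + 1) ≤ k * (s * M) := Nat.mul_le_mul_left k hMlb
    have h2 : s * (2 * k) * M = k * (s * M) + k * s * M := by ring
    have h3 : k * (2 * n + 1) = n * (2 * k) + k := by ring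
    omega
  obtain ⟨g, hgH, hgU⟩ := exists_family (n := n) (k := k) (s := s) (v := 2 * k) (M := M)
    (Nat.mul_pos hk0 hM0) hhpos.le hbig hcount
  refine ⟨lightSet g s, ?_, ?_⟩
  · -- subspaces avoiding X are small
    intro W hW
    by_contra hcon
    rw [not_lt] at hcon
    -- apply the light point theorem on W
    let φ : Fin M → Fin k → (W →+ ZMod 2) := fun b i =>
      ((g b i) ∘ₗ W.subtype).toAddMonoidHom
    have hφ : ∀ b i (x : W), φ b i x = g b i (x : VV n) := fun b i x => rfl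
    have hcardW : Fintype.card W = 2 ^ finrank (ZMod 2) W := by
      rw [Module.card_eq_pow_finrank (K := ZMod 2), ZMod.card]
    have hJe : Even J := by
      rw [hJ]; exact ⟨12 * l * h', by ring⟩
    have hlJ : 2 * l ≤ J := by
      rw [hJ]
      calc 2 * l ≤ 24 * l * 1 := by omega
        _ ≤ 24 * l * h' := Nat.mul_le_mul_left _ hh'0
    have hkh : (k : ℝ) ≤ h := by
      rw [hkr]
      calc 576 * (q : ℝ) ^ 4 ≤ 120 * (q : ℝ) ^ 5 * (q : ℝ) := by
            have h40 : (0 : ℝ) < (q : ℝ) ^ 4 := by positivity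
            have h41 : (9 : ℝ) ≤ (q : ℝ) * (q : ℝ) := by nlinarith
            have h42 := mul_le_mul_of_nonneg_left h41 h40.le
            have h43 : 120 * (q : ℝ) ^ 5 * (q : ℝ) = 120 * ((q : ℝ) ^ 4 * ((q : ℝ) * (q : ℝ))) := by
              ring
            rw [h43]; linarith
        _ ≤ 120 * (n : ℝ) * (q : ℝ) := by gcongr
        _ ≤ h := hhlb
    have hP2 : (h + M * k) ^ J * 4 ≤ Fintype.card W * h ^ J := by
      have h1 : h + M * k ≤ 16 * q * h := by
        have h2 : (M : ℝ) * k ≤ 10 * q * h := by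
          calc (M : ℝ) * k ≤ 1200 * (n : ℝ) * (q : ℝ) ^ 2 := hMk
            _ = 10 * (q : ℝ) * (120 * (n : ℝ) * (q : ℝ)) := by ring
            _ ≤ 10 * (q : ℝ) * h := by gcongr
        have h22 : h * 3 ≤ h * q := by gcongr
        linarith [mul_comm h (q : ℝ)]
      have h3 : (16 * (q : ℝ)) ≤ 2 ^ (Nat.log 2 q + 5) := by
        have h4 : q < 2 ^ (Nat.log 2 q + 1) := Nat.lt_pow_succ_log_self (by norm_num) q
        have h5 : (q : ℝ) ≤ 2 ^ (Nat.log 2 q + 1) := by exact_mod_cast h4.le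
        calc (16 * (q : ℝ)) ≤ 16 * 2 ^ (Nat.log 2 q + 1) := by gcongr
          _ = 2 ^ (Nat.log 2 q + 5) := by ring
      calc (h + M * k) ^ J * 4 ≤ (16 * q * h) ^ J * 4 := by
            gcongr
        _ = (16 * (q : ℝ)) ^ J * h ^ J * 4 := by rw [mul_pow (16 * (q : ℝ)) h]
        _ ≤ (2 ^ (Nat.log 2 q + 5)) ^ J * h ^ J * 4 := by gcongr
        _ = 2 ^ (2 + (Nat.log 2 q + 5) * J) * h ^ J := by
            rw [← pow_mul, pow_add]; norm_num; ring
        _ ≤ 2 ^ finrank (ZMod 2) W * h ^ J := by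
            have h6 : 2 + (Nat.log 2 q + 5) * J ≤ finrank (ZMod 2) W := by
              have : wdim n q = 2 + (Nat.log 2 q + 5) * J := by rw [wdim, hJ]
              omega
            gcongr
            norm_num
        _ = Fintype.card W * h ^ J := by rw [hcardW]; push_cast; ring
    have hP3 : (M : ℝ) * ((1 + s / h) ^ J * (2 * (3 * h) ^ (2 * l))) * 2 ≤
        (J.choose (2 * l) : ℝ) * (k : ℝ) ^ l := by
      have h1 : (1 + (s : ℝ) / h) ^ J ≤ 4 ^ l := by
        have h2 : (s : ℝ) / h = 1 / ((24 * h' : ℕ) : ℝ) := by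
          rw [hs, hh]; push_cast; field_simp
        have h3 : J = (24 * h') * l := by rw [hJ]; ring
        rw [h2, h3, pow_mul]
        apply pow_le_pow_left₀ (by positivity)
        exact one_add_inv_pow_le _ (by positivity)
      have h4 : ((12 * (h' : ℝ)) ^ (2 * l)) ≤ (J.choose (2 * l) : ℝ) := by
        have h5 := pow_le_choose_mul (12 * h') (2 * l)
        have h6 : 2 * l * (12 * h') = J := by rw [hJ]; ring
        rw [h6] at h5
        exact_mod_cast h5
      have h7 : (k : ℝ) ^ l = (24 * (q : ℝ) ^ 2) ^ (2 * l) := by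
        rw [hkr, pow_mul]; congr 1; ring
      have h8 : 4 * (M : ℝ) ≤ 4 ^ l := by
        have h9 : n < 2 ^ l := Nat.lt_pow_succ_log_self (by norm_num) n
        have h10 : M ≤ n := by
          have : (M : ℝ) ≤ n := by
            have h11 : (M : ℝ) * 9 ≤ 2 * n + 9 := by
              have h12 : 2 * n / q ^ 2 ≤ 2 * n / 9 :=
                Nat.div_le_div_left (by nlinarith) (by norm_num)
              have h13 : 2 * n / 9 * 9 ≤ 2 * n := Nat.div_mul_le_self _ _
              have : M * 9 ≤ 2 * n + 9 := by rw [hM]; omega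
              exact_mod_cast this
            linarith
          exact_mod_cast this
        have h14 : 4 * M ≤ 4 ^ l := by
          calc 4 * M ≤ 4 * n := by omega
            _ ≤ (n + 1) * (n + 1) := by nlinarith
            _ ≤ 2 ^ l * 2 ^ l := Nat.mul_le_mul h9 h9
            _ = 4 ^ l := by rw [← mul_pow]; norm_num
        exact_mod_cast h14
      calc (M : ℝ) * ((1 + s / h) ^ J * (2 * (3 * h) ^ (2 * l))) * 2
          ≤ (M : ℝ) * (4 ^ l * (2 * (3 * h) ^ (2 * l))) * 2 := by gcongr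
        _ = (4 * (M : ℝ)) * (4 ^ l * (3 * h) ^ (2 * l)) := by ring
        _ ≤ 4 ^ l * (4 ^ l * (3 * h) ^ (2 * l)) := by gcongr
        _ = (12 * h) ^ (2 * l) := by
            rw [pow_mul (3 * h), pow_mul (12 * h), ← mul_pow, ← mul_pow]
            congr 1; ring
        _ = (12 * (h' : ℝ)) ^ (2 * l) * (24 * (q : ℝ) ^ 2) ^ (2 * l) := by
            rw [← mul_pow]; congr 1; rw [hh]; ring
        _ ≤ (J.choose (2 * l) : ℝ) * (k : ℝ) ^ l := by
            rw [h7]; gcongr
    obtain ⟨x, hx0, hxl⟩ := exists_light φ h s hhpos (Nat.cast_nonneg _) hkh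
      (fun x hx => by
        have : (x : VV n) ≠ 0 := fun h0 => hx (Subtype.ext h0)
        simpa [hφ] using hgH x this)
      J l hJe hlJ hP2 hP3
    refine hW x x.2 (fun h0 => hx0 (Subtype.ext h0)) ?_
    intro b
    simpa [hφ] using hxl b
  · -- subspaces inside X + X are small
    intro U hU
    by_contra hcon
    rw [not_lt] at hcon
    have h1152 : 2 * k ≤ finrank (ZMod 2) U := by
      have : 2 * k = 1152 * q ^ 4 := by rw [hk]; ring
      omega
    obtain ⟨U', hU'U, hU'⟩ : ∃ U' : Submodule (ZMod 2) (VV n), U' ≤ U ∧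
        finrank (ZMod 2) U' = 2 * k := by
      obtain ⟨f, hf⟩ := exists_linearIndependent_of_le_finrank (R := ZMod 2) (M := U) h1152
      have hf' : LinearIndependent (ZMod 2) (fun i => (f i : VV n)) :=
        hf.map' U.subtype U.ker_subtype
      refine ⟨Submodule.span (ZMod 2) (Set.range fun i => (f i : VV n)), ?_, ?_⟩
      · rw [Submodule.span_le]
        rintro _ ⟨i, rfl⟩
        exact (f i).2
      · rw [finrank_span_eq_card hf']
        simp
    obtain ⟨b, z, hzU, hz⟩ := hgU U' hU'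
    have hsk : s ≤ k := by
      rw [hs, hk]
      calc q ^ 2 ≤ q ^ 4 := Nat.pow_le_pow_right hq0 (by norm_num)
        _ ≤ 576 * q ^ 4 := by omega
    have hz0 : z ≠ 0 := by
      rintro rfl
      simp at hz
      omega
    exact heavy_not_mem g hz (hU z (hU'U hzU) hz0)

end H355
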